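import Pool.Agent.H92.Lambda2

set_option autoImplicit false
open MeasureTheory AddCircle

namespace Pool.Agent.Results.MP_535799_an.NonSidon

variable {T : ℝ} [hT : Fact (0 < T)]

/-- convolution on the circle `ℝ / Tℤ` with normalised Haar measure -/
noncomputable def conv (f g : AddCircle T → ℂ) : AddCircle T → ℂ :=
  fun x => ∫ y, f y * g (x - y) ∂haarAddCircle

/-- the `L¹` distance -/
noncomputable def dist1 (f g : AddCircle T → ℂ) : ℝ := ∫ x, ‖f x - g x‖ ∂haarAddCircle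

/-- `A` is (the set of all representatives of) a closed subalgebra of the convolution algebra `L¹` -/
structure ClosedSubalg (A : Set (AddCircle T → ℂ)) : Prop where
  integrable : ∀ f ∈ A, Integrable f haarAddCircle
  zero : (fun _ => 0) ∈ A
  add : ∀ f ∈ A, ∀ g ∈ A, (fun x => f x + g x) ∈ A
  smul : ∀ c : ℂ, ∀ f ∈ A, (fun x => c * f x) ∈ A
  closed : ∀ f, Integrable f haarAddCircle → (∀ ε > 0, ∃ g ∈ A, dist1 f g < ε) → f ∈ A
  mul : ∀ f ∈ A, ∀ g ∈ A, conv f g ∈ A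

variable (T)

/-- property (P) -/
def PropP (Q : Set ℤ) : Prop :=
  ∀ A : Set (AddCircle T → ℂ), ClosedSubalg A → ∀ f ∈ A, (∀ n ∉ Q, fourierCoeff f n = 0) →
    ∀ ε > 0, ∃ (k : ℕ) (c : Fin k → ℂ) (e : Fin k → AddCircle T → ℂ),
      (∀ i, e i ∈ A ∧ conv (e i) (e i) =ᵐ[haarAddCircle] e i) ∧
      dist1 f (fun x => ∑ i, c i * e i x) < ε

/-- Sidon sets -/
def Sidon (Q : Set ℤ) : Prop :=
  ∃ C : ℝ, ∀ (s : Finset ℤ) (a : ℤ → ℂ), ↑s ⊆ Q →
    ∑ n ∈ s, ‖a n‖ ≤ C * ⨆ x : AddCircle T, ‖∑ n ∈ s, a n * fourier n x‖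

theorem result (T : ℝ) [Fact (0 < T)] :
    PropP T {n | ∃ i j : ℕ, n = 5 ^ (2 * i) + 5 ^ (2 * j + 1)} ∧
      ¬ Sidon T {n | ∃ i j : ℕ, n = 5 ^ (2 * i) + 5 ^ (2 * j + 1)} := by
  constructor
  · intro A hA f hf hQ ε hε
    have sat : ∀ g ∈ A, ∀ g', g' =ᵐ[haarAddCircle] g → g' ∈ A := fun g hg g' h =>
      hA.closed g' ((hA.integrable g hg).congr h.symm) fun δ hδ => ⟨g, hg, by
        rw [dist1, integral_congr_ae (g := fun _ => 0) (h.mono fun x hx => by simp [hx])]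
        simpa using hδ⟩
    have hd : ∀ u v : Pool.Agent.H92.Lambda2.L1 T, dist u v = dist1 u v := fun u v => by
      rw [dist_eq_norm, L1.norm_sub_eq_lintegral, dist1, integral_norm_eq_lintegral_enorm]
      exact (Lp.aestronglyMeasurable u).sub (Lp.aestronglyMeasurable v)
    let B : Submodule ℂ (Pool.Agent.H92.Lambda2.L1 T) :=
      { carrier := {g | (g : AddCircle T → ℂ) ∈ A}
        add_mem' := fun {u v} hu hv => sat _ (hA.add _ hu _ hv) _ (Lp.coeFn_add u v)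
        zero_mem' := sat _ hA.zero _ (Lp.coeFn_zero _ _ _)
        smul_mem' := fun c u hu => sat _ (hA.smul c _ hu) _ (Lp.coeFn_smul c u) }
    have hB : IsClosed (B : Set (Pool.Agent.H92.Lambda2.L1 T)) := by
      refine isClosed_of_closure_subset fun u hu => ?_
      refine hA.closed _ (L1.integrable_coeFn u) fun δ hδ => ?_
      obtain ⟨v, hv, h⟩ := Metric.mem_closure_iff.mp hu δ hδ
      exact ⟨v, hv, hd u v ▸ h⟩
    have hc : ∀ u ∈ B, ∀ v ∈ B, ∃ k ∈ B, (k : AddCircle T → ℂ) =ᵐ[haarAddCircle] conv u v := by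
      intro u hu v hv
      have h1 := hA.mul _ hu _ hv
      exact ⟨(hA.integrable _ h1).toL1, sat _ h1 _ (Integrable.coeFn_toL1 _), Integrable.coeFn_toL1 _⟩
    have hfi := hA.integrable f hf
    have := Pool.Agent.H92.Lambda2.main B hB (fun u hu v hv => by
      obtain ⟨k, hk, h⟩ := hc u hu v hv
      exact ⟨k, hk, Pool.Agent.H92.Lambda2.coef_conv h⟩) (f := hfi.toL1)
      (sat _ hf _ hfi.coeFn_toL1) (Pool.Agent.H92.Lambda2.summable_Q5 _ fun n hn => by
        rw [fourierCoeff_congr_ae hfi.coeFn_toL1, hQ n hn])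
    obtain ⟨v, hv, h⟩ := Metric.mem_closure_iff.mp this ε hε
    obtain ⟨k, c, e, rfl⟩ := Submodule.mem_span_set'.mp hv
    refine ⟨k, c, fun i => (e i).1, fun i => ⟨(e i).2.1, ?_⟩, ?_⟩
    · obtain ⟨k, -, hk⟩ := hc _ (e i).2.1 _ (e i).2.1
      have : k = (e i).1 := Pool.Agent.H92.Lambda2.uniq fun n => by
        rw [Pool.Agent.H92.Lambda2.coef_conv hk, (e i).2.2]
      exact (this ▸ hk).symm
    · rw [hd] at h
      refine lt_of_eq_of_lt (integral_congr_ae ?_) h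
      filter_upwards [hfi.coeFn_toL1, Lp.coeFn_finsetSum Finset.univ (fun i => c i • (e i).1),
        ae_all_iff.mpr fun i => Lp.coeFn_smul (c i) (e i).1] with x h1 h2 h3
      rw [h1, h2]
      simp [h3]
  · rintro ⟨C, hC⟩
    obtain ⟨s, c, M, hs, hM, hlt⟩ := Pool.Agent.H92.Lambda2.Q5_not_sidon (T := T) (max C 0)
    have h1 : ⨆ x : AddCircle T, ‖∑ n ∈ s, c n * fourier n x‖ ≤ M := ciSup_le hM
    have h2 := mul_le_mul (le_max_left C 0) h1 (Real.iSup_nonneg fun _ => norm_nonneg _) (le_max_right _ _)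
    linarith [hC s c hs]

end Pool.Agent.Results.MP_535799_an.NonSidon
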